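import Mathlib

set_option autoImplicit false

namespace Pool.Agent.Run7.h644.BC

open Finset

/-- A finite graph with an orientation of out-degree at most `d` is `(2 d + 1)`-colourable. -/
lemma colour_of_out {ι : Type} [Fintype ι] [DecidableEq ι] (R : ι → ι → Prop) [DecidableRel R]
    (d : ℕ) (hout : ∀ i, (univ.filter (fun j => j ≠ i ∧ R i j)).card ≤ d) :
    ∀ (n : ℕ) (S : Finset ι), S.card = n → ∃ φ : ι → Fin (2 * d + 1),
      ∀ i ∈ S, ∀ j ∈ S, i ≠ j → R i j → φ i ≠ φ j := by
  intro n
  induction n with
  | zero =>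
    intro S hS
    refine ⟨fun _ => 0, ?_⟩
    intro i hi
    rw [Finset.card_eq_zero] at hS
    simp [hS] at hi
  | succ n ih =>
    intro S hS
    have hne : S.Nonempty := by
      rw [← Finset.card_pos]; omega
    -- a vertex of small degree
    have hv : ∃ v ∈ S, (S.filter (fun j => j ≠ v ∧ R v j)).card +
        (S.filter (fun j => j ≠ v ∧ R j v)).card ≤ 2 * d := by
      by_contra hcon
      push Not at hcon
      have h1 : ∑ v ∈ S, (2 * d + 1) ≤ ∑ v ∈ S, ((S.filter (fun j => j ≠ v ∧ R v j)).card +
        (S.filter (fun j => j ≠ v ∧ R j v)).card) := Finset.sum_le_sum (fun v hv => hcon v hv)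
      simp only [Finset.sum_add_distrib] at h1
      have h2 : ∑ v ∈ S, (S.filter (fun j => j ≠ v ∧ R v j)).card =
          ∑ v ∈ S, (S.filter (fun j => j ≠ v ∧ R j v)).card := by
        have := Finset.sum_card_bipartiteAbove_eq_sum_card_bipartiteBelow (s := S) (t := S)
          (fun v j => j ≠ v ∧ R v j)
        simp only [Finset.bipartiteAbove, Finset.bipartiteBelow] at this
        rw [this]
        refine Finset.sum_congr rfl (fun v _ => ?_)
        congr 1
        ext j
        simp [ne_comm]
      have h3 : ∑ v ∈ S, (S.filter (fun j => j ≠ v ∧ R v j)).card ≤ ∑ v ∈ S, d := by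
        refine Finset.sum_le_sum (fun v _ => ?_)
        refine le_trans (Finset.card_le_card ?_) (hout v)
        intro j hj
        simp only [Finset.mem_filter, Finset.mem_univ, true_and] at hj ⊢
        exact hj.2
      rw [← h2] at h1
      simp only [Finset.sum_const, smul_eq_mul] at h1 h3
      have h4 : 0 < S.card := by omega
      nlinarith
    obtain ⟨v, hvS, hv⟩ := hv
    obtain ⟨φ, hφ⟩ := ih (S.erase v) (by rw [Finset.card_erase_of_mem hvS]; omega)
    -- a free colour
    have hfree : ∃ c : Fin (2 * d + 1), ∀ j ∈ S, j ≠ v → (R v j ∨ R j v) → φ j ≠ c := by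
      by_contra hcon
      push Not at hcon
      have hsub : (univ : Finset (Fin (2 * d + 1))) ⊆
          ((S.filter (fun j => j ≠ v ∧ R v j)) ∪ (S.filter (fun j => j ≠ v ∧ R j v))).image φ := by
        intro c _
        obtain ⟨j, hj, hjv, hR, hc⟩ := hcon c
        rw [Finset.mem_image]
        refine ⟨j, ?_, hc⟩
        simp only [Finset.mem_union, Finset.mem_filter]
        rcases hR with hR | hR
        · exact Or.inl ⟨hj, hjv, hR⟩
        · exact Or.inr ⟨hj, hjv, hR⟩
      have h1 := Finset.card_le_card hsub
      have h2 := Finset.card_image_le (s := ((S.filter (fun j => j ≠ v ∧ R v j)) ∪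
        (S.filter (fun j => j ≠ v ∧ R j v)))) (f := φ)
      have h3 := Finset.card_union_le (S.filter (fun j => j ≠ v ∧ R v j))
        (S.filter (fun j => j ≠ v ∧ R j v))
      simp only [Finset.card_univ, Fintype.card_fin] at h1
      omega
    obtain ⟨c, hc⟩ := hfree
    refine ⟨fun j => if j = v then c else φ j, ?_⟩
    intro i hi j hj hij hR
    by_cases h1 : i = v
    · subst h1
      have h2 : j ≠ i := fun h => hij h.symm
      simp only [if_true, if_neg h2]
      exact fun h => hc j hj h2 (Or.inl hR) h.symm
    · by_cases h2 : j = v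
      · subst h2
        simp only [if_true, if_neg h1]
        exact hc i hi h1 (Or.inr hR)
      · simp only [if_neg h1, if_neg h2]
        exact hφ i (Finset.mem_erase.2 ⟨h1, hi⟩) j (Finset.mem_erase.2 ⟨h2, hj⟩) hij hR

/-- There are `k` subsets of an `N`-set such that any pattern on at most `r` points with at least one
positive point is realised by one of them. -/
def Sep (r N k : ℕ) : Prop :=
  ∃ A : Fin k → Fin N → Bool, ∀ P M : Finset (Fin N), Disjoint P M → P.Nonempty →
    P.card + M.card ≤ r → ∃ c, (∀ a ∈ P, A c a = true) ∧ (∀ a ∈ M, A c a = false)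

/-- The colouring. -/
lemma colorable_of_small {V ι : Type} [Finite V] [Finite ι] (G : SimpleGraph V) (X Y : ι → Set V)
    (r q k : ℕ)
    (hc : ∀ i, ∀ x ∈ X i, ∀ y ∈ Y i, G.Adj x y)
    (hcov : ∀ x y, G.Adj x y → ∃ i, (x ∈ X i ∧ y ∈ Y i) ∨ (y ∈ X i ∧ x ∈ Y i))
    (hload : ∀ v, {i | v ∈ X i ∨ v ∈ Y i}.ncard ≤ r)
    (hX : ∀ i, (X i).ncard ≤ q)
    (hS : Sep r (2 * (q * (r - 1)) + 1) k) : G.Colorable (k + 1) := by
  classical
  have := Fintype.ofFinite V
  have := Fintype.ofFinite ι
  obtain ⟨A, hA⟩ := hS
  -- the digraph on the bicliques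
  have hdisj : ∀ i v, v ∈ X i → v ∈ Y i → False := fun i v h1 h2 => (hc i v h1 v h2).ne rfl
  obtain ⟨φ, hφ⟩ := colour_of_out (ι := ι) (fun i j => ∃ v ∈ X i, v ∈ X j ∨ v ∈ Y j)
    (q * (r - 1)) (by
      intro i
      have hsub : (univ.filter (fun j => j ≠ i ∧ ∃ v ∈ X i, v ∈ X j ∨ v ∈ Y j)) ⊆
          (X i).toFinset.biUnion (fun v => (univ.filter (fun j => v ∈ X j ∨ v ∈ Y j)).erase i) := by
        intro j hj
        simp only [Finset.mem_filter, Finset.mem_univ, true_and] at hj
        obtain ⟨hji, v, hv, hvj⟩ := hj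
        simp only [Finset.mem_biUnion, Set.mem_toFinset, Finset.mem_erase, Finset.mem_filter,
          Finset.mem_univ, true_and]
        exact ⟨v, hv, hji, hvj⟩
      refine le_trans (Finset.card_le_card hsub) ?_
      refine le_trans (Finset.card_biUnion_le_card_mul _ _ (r - 1) ?_) ?_
      · intro v hv
        rw [Set.mem_toFinset] at hv
        have h1 : i ∈ univ.filter (fun j => v ∈ X j ∨ v ∈ Y j) := by
          simp [hv]
        rw [Finset.card_erase_of_mem h1]
        have h2 := hload v
        rw [Set.ncard_eq_toFinset_card'] at h2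
        have h3 : {i | v ∈ X i ∨ v ∈ Y i}.toFinset = univ.filter (fun j => v ∈ X j ∨ v ∈ Y j) := by
          ext j; simp
        rw [h3] at h2
        omega
      · have h1 := hX i
        rw [Set.ncard_eq_toFinset_card'] at h1
        exact Nat.mul_le_mul_right _ h1) _ univ rfl
  -- colours
  have hcol : ∀ v, (∃ i, v ∈ X i) → ∃ c : Fin k, (∀ i, v ∈ X i → A c (φ i) = true) ∧
      (∀ i, v ∈ Y i → A c (φ i) = false) := by
    intro v ⟨i0, hi0⟩
    obtain ⟨c, h1, h2⟩ := hA ((univ.filter (fun i => v ∈ X i)).image φ)
      ((univ.filter (fun i => v ∈ Y i)).image φ) (by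
        rw [Finset.disjoint_left]
        intro a ha hb
        simp only [Finset.mem_image, Finset.mem_filter, Finset.mem_univ, true_and] at ha hb
        obtain ⟨i, hi, rfl⟩ := ha
        obtain ⟨j, hj, hij⟩ := hb
        have hne : i ≠ j := by
          rintro rfl
          exact hdisj i v hi hj
        exact hφ i (Finset.mem_univ _) j (Finset.mem_univ _) hne ⟨v, hi, Or.inr hj⟩ hij.symm)
      ⟨φ i0, by
        simp only [Finset.mem_image, Finset.mem_filter, Finset.mem_univ, true_and]
        exact ⟨i0, hi0, rfl⟩⟩ (by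
        have h1 := Finset.card_image_le (s := univ.filter (fun i => v ∈ X i)) (f := φ)
        have h2 := Finset.card_image_le (s := univ.filter (fun i => v ∈ Y i)) (f := φ)
        have h3 : (univ.filter (fun i => v ∈ X i)).card + (univ.filter (fun i => v ∈ Y i)).card ≤
            r := by
          rw [← Finset.card_union_of_disjoint]
          · have h2 := hload v
            rw [Set.ncard_eq_toFinset_card'] at h2
            refine le_trans (Finset.card_le_card ?_) h2
            intro j hj
            simpa using hj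
          · rw [Finset.disjoint_left]
            intro j h1 h2
            simp only [Finset.mem_filter, Finset.mem_univ, true_and] at h1 h2
            exact hdisj j v h1 h2
        omega)
    refine ⟨c, fun i hi => h1 _ ?_, fun i hi => h2 _ ?_⟩
    · simp only [Finset.mem_image, Finset.mem_filter, Finset.mem_univ, true_and]
      exact ⟨i, hi, rfl⟩
    · simp only [Finset.mem_image, Finset.mem_filter, Finset.mem_univ, true_and]
      exact ⟨i, hi, rfl⟩
  choose! col hcol1 hcol2 using hcol
  by_cases hk : Nonempty (Fin k)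
  · have h0 : G.Coloring (Option (Fin k)) := by
      refine SimpleGraph.Coloring.mk
        (fun v => if h : ∃ i, v ∈ X i then some (col v h) else none) ?_
      intro v w hvw
      obtain ⟨i, hi⟩ := hcov v w hvw
      rcases hi with ⟨h1, h2⟩ | ⟨h1, h2⟩
      · have hv : ∃ i, v ∈ X i := ⟨i, h1⟩
        simp only [dif_pos hv]
        by_cases hw : ∃ i, w ∈ X i
        · simp only [dif_pos hw]
          intro h
          have h3 := hcol1 v hv i h1
          have h4 := hcol2 w hw i h2
          rw [Option.some.inj h] at h3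
          rw [h3] at h4
          exact absurd h4 (by decide)
        · simp [dif_neg hw]
      · have hw : ∃ i, w ∈ X i := ⟨i, h1⟩
        simp only [dif_pos hw]
        by_cases hv : ∃ i, v ∈ X i
        · simp only [dif_pos hv]
          intro h
          have h3 := hcol1 w hw i h1
          have h4 := hcol2 v hv i h2
          rw [← Option.some.inj h] at h3
          rw [h3] at h4
          exact absurd h4 (by decide)
        · simp [dif_neg hv]
    have h1 := h0.colorable
    rw [Fintype.card_option, Fintype.card_fin] at h1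
    exact h1
  · -- `k = 0`: no vertex is in `X i`
    have h0 : ∀ v, ¬ ∃ i, v ∈ X i := by
      intro v hv
      exact hk ⟨col v hv⟩
    refine ⟨SimpleGraph.Coloring.mk (fun _ => 0) ?_⟩
    intro v w hvw
    obtain ⟨i, hi⟩ := hcov v w hvw
    rcases hi with ⟨h1, h2⟩ | ⟨h1, h2⟩
    · exact absurd ⟨i, h1⟩ (h0 v)
    · exact absurd ⟨i, h1⟩ (h0 w)

end Pool.Agent.Run7.h644.BC
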