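import Pool.Agent.Run7.h644.BC.Core

set_option autoImplicit false

namespace Pool.Agent.Run7.h644.BC

open Finset

/-- the functions which agree with the pattern `t` -/
def Good {N r : ℕ} (t : Fin r → Fin N × Bool) : Finset (Fin N → Bool) :=
  univ.filter (fun f => ∀ l, f (t l).1 = (t l).2)

lemma card_good {N r : ℕ} (t : Fin r → Fin N × Bool) (ht : (Good t).Nonempty) :
    2 ^ N ≤ 2 ^ r * (Good t).card := by
  classical
  obtain ⟨g, hg⟩ := ht
  simp only [Good, Finset.mem_filter, Finset.mem_univ, true_and] at hg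
  have h1 : (univ : Finset (Fin N → Bool)).card =
      ∑ s : Fin r → Bool, (univ.filter (fun f : Fin N → Bool => (fun l => f (t l).1) = s)).card :=
    Finset.card_eq_sum_card_fiberwise (fun f _ => Finset.mem_coe.2 (Finset.mem_univ _))
  have h2 : ∀ s : Fin r → Bool,
      (univ.filter (fun f : Fin N → Bool => (fun l => f (t l).1) = s)).card ≤ (Good t).card := by
    intro s
    rcases (univ.filter (fun f : Fin N → Bool => (fun l => f (t l).1) = s)).eq_empty_or_nonempty
      with h | ⟨f0, hf0⟩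
    · rw [h]; simp
    · simp only [Finset.mem_filter, Finset.mem_univ, true_and] at hf0
      refine Finset.card_le_card_of_injOn (fun f a => xor (f a) (xor (f0 a) (g a))) ?_ ?_
      · intro f hf
        simp only [Finset.coe_filter, Finset.mem_univ, true_and, Set.mem_ofPred_eq] at hf
        simp only [Good, Finset.coe_filter, Finset.mem_univ, true_and, Set.mem_ofPred_eq]
        intro l
        have h3 : f (t l).1 = f0 (t l).1 := by
          have := congrFun (hf.trans hf0.symm) l
          exact this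
        rw [h3, hg l]
        cases f0 (t l).1 <;> cases (t l).2 <;> rfl
      · intro f _ f' _ h
        funext a
        have := congrFun h a
        simp only at this
        revert this
        cases f a <;> cases f' a <;> cases f0 a <;> cases g a <;> simp
  have h3 : (univ : Finset (Fin N → Bool)).card = 2 ^ N := by
    simp [Finset.card_univ]
  rw [← h3, h1]
  refine le_trans (Finset.sum_le_card_nsmul _ _ _ (fun s _ => h2 s)) ?_
  simp [Finset.card_univ]

lemma sep_of_count (r N k : ℕ) (h : (2 * N) ^ r * (2 ^ r - 1) ^ k < (2 ^ r) ^ k) : Sep r N k := by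
  classical
  -- the bad events
  set Bad : (Fin r → Fin N × Bool) → Finset (Fin N → Bool) := fun t => univ \ Good t with hBad
  set Ev : (Fin r → Fin N × Bool) → Finset (Fin k → Fin N → Bool) :=
    fun t => Fintype.piFinset (fun _ => Bad t) with hEv
  have hbad : ∀ t, (Good t).Nonempty → 2 ^ r * (Bad t).card ≤ (2 ^ r - 1) * 2 ^ N := by
    intro t ht
    have h1 := card_good t ht
    have h2 : (Bad t).card + (Good t).card = 2 ^ N := by
      rw [hBad]
      simp only
      rw [Finset.card_sdiff_add_card_eq_card (Finset.subset_univ _)]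
      simp [Finset.card_univ]
    have h3 : 1 ≤ 2 ^ r := Nat.one_le_two_pow
    have h4 : (2 ^ r - 1) * 2 ^ N + 2 ^ N = 2 ^ r * 2 ^ N := by
      rw [← Nat.succ_mul]
      congr 1
      omega
    have h5 : 2 ^ r * (Bad t).card + 2 ^ r * (Good t).card = 2 ^ r * 2 ^ N := by
      rw [← Nat.mul_add, h2]
    omega
  have hev : ∀ t, (Good t).Nonempty → (2 ^ r) ^ k * (Ev t).card ≤
      (2 ^ r - 1) ^ k * (2 ^ N) ^ k := by
    intro t ht
    have h1 : (Ev t).card = (Bad t).card ^ k := by
      rw [hEv]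
      simp only
      rw [Fintype.card_piFinset]
      simp
    rw [h1, ← Nat.mul_pow, ← Nat.mul_pow]
    exact Nat.pow_le_pow_left (hbad t ht) k
  -- the union
  set U : Finset (Fin k → Fin N → Bool) :=
    (univ.filter (fun t : Fin r → Fin N × Bool => (Good t).Nonempty)).biUnion Ev with hU
  have hUcard : (2 ^ r) ^ k * U.card ≤ (2 * N) ^ r * ((2 ^ r - 1) ^ k * (2 ^ N) ^ k) := by
    have h1 : U.card ≤ ∑ t ∈ univ.filter (fun t : Fin r → Fin N × Bool => (Good t).Nonempty),
        (Ev t).card := Finset.card_biUnion_le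
    have h2 : (2 ^ r) ^ k * ∑ t ∈ univ.filter (fun t : Fin r → Fin N × Bool => (Good t).Nonempty),
        (Ev t).card ≤ ∑ t ∈ univ.filter (fun t : Fin r → Fin N × Bool => (Good t).Nonempty),
        (2 ^ r - 1) ^ k * (2 ^ N) ^ k := by
      rw [Finset.mul_sum]
      refine Finset.sum_le_sum (fun t ht => ?_)
      simp only [Finset.mem_filter, Finset.mem_univ, true_and] at ht
      exact hev t ht
    refine le_trans (Nat.mul_le_mul_left _ h1) (le_trans h2 ?_)
    rw [Finset.sum_const, smul_eq_mul]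
    refine Nat.mul_le_mul_right _ ?_
    refine le_trans (Finset.card_le_univ _) ?_
    simp [mul_comm]
  have hlt : U.card < (univ : Finset (Fin k → Fin N → Bool)).card := by
    have h1 : (univ : Finset (Fin k → Fin N → Bool)).card = (2 ^ N) ^ k := by
      simp [Finset.card_univ]
    rw [h1]
    by_contra hcon
    push Not at hcon
    have h2 : (2 ^ r) ^ k * (2 ^ N) ^ k ≤ (2 * N) ^ r * ((2 ^ r - 1) ^ k * (2 ^ N) ^ k) :=
      le_trans (Nat.mul_le_mul_left _ hcon) hUcard
    rw [← mul_assoc] at h2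
    have h3 : 0 < (2 ^ N) ^ k := by positivity
    exact absurd (Nat.le_of_mul_le_mul_right h2 h3) (not_le.2 h)
  obtain ⟨A, -, hA⟩ := Finset.exists_mem_notMem_of_card_lt_card hlt
  refine ⟨A, ?_⟩
  intro P M hPM hP hcard
  -- the pattern
  obtain ⟨a0, ha0⟩ := hP
  set Q : Finset (Fin N × Bool) := P.image (fun a => (a, true)) ∪ M.image (fun a => (a, false))
    with hQ
  have hQcard : Q.card ≤ r := by
    refine le_trans (Finset.card_union_le _ _) (le_trans (Nat.add_le_add Finset.card_image_le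
      Finset.card_image_le) hcard)
  have hq0 : (a0, true) ∈ Q := by
    rw [hQ, Finset.mem_union]
    exact Or.inl (Finset.mem_image.2 ⟨a0, ha0, rfl⟩)
  set t : Fin r → Fin N × Bool := fun l =>
    if hl : l.1 < Q.card then (Q.equivFin.symm ⟨l.1, hl⟩).1 else (a0, true) with ht
  have ht1 : ∀ l, t l ∈ Q := by
    intro l
    rw [ht]
    by_cases hl : l.1 < Q.card
    · simp only [dif_pos hl]
      exact (Q.equivFin.symm ⟨l.1, hl⟩).2
    · simp only [dif_neg hl]
      exact hq0
  have ht2 : ∀ q ∈ Q, ∃ l, t l = q := by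
    intro q hq
    have h1 : (Q.equivFin ⟨q, hq⟩).1 < r := lt_of_lt_of_le (Q.equivFin ⟨q, hq⟩).2 hQcard
    refine ⟨⟨(Q.equivFin ⟨q, hq⟩).1, h1⟩, ?_⟩
    rw [ht]
    simp
  have hgood : (Good t).Nonempty := by
    refine ⟨fun a => decide (a ∈ P), ?_⟩
    simp only [Good, Finset.mem_filter, Finset.mem_univ, true_and]
    intro l
    have h1 := ht1 l
    rw [hQ, Finset.mem_union, Finset.mem_image, Finset.mem_image] at h1
    rcases h1 with ⟨a, ha, hal⟩ | ⟨a, ha, hal⟩
    · rw [← hal]; simp [ha]
    · rw [← hal]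
      have : a ∉ P := fun h => (Finset.disjoint_left.1 hPM h) ha
      simp [this]
  have hAt : A ∉ Ev t := by
    intro h1
    apply hA
    rw [hU, Finset.mem_biUnion]
    exact ⟨t, by simpa using hgood, h1⟩
  rw [hEv] at hAt
  simp only [Fintype.mem_piFinset, hBad, Finset.mem_sdiff, Finset.mem_univ, true_and, not_forall,
    not_not] at hAt
  obtain ⟨c, hc⟩ := hAt
  simp only [Good, Finset.mem_filter, Finset.mem_univ, true_and] at hc
  refine ⟨c, ?_, ?_⟩
  · intro a ha
    obtain ⟨l, hl⟩ := ht2 (a, true) (by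
      rw [hQ, Finset.mem_union]
      exact Or.inl (Finset.mem_image.2 ⟨a, ha, rfl⟩))
    have := hc l
    rw [hl] at this
    exact this
  · intro a ha
    obtain ⟨l, hl⟩ := ht2 (a, false) (by
      rw [hQ, Finset.mem_union]
      exact Or.inr (Finset.mem_image.2 ⟨a, ha, rfl⟩))
    have := hc l
    rw [hl] at this
    exact this

/-- The real form of the condition. -/
lemma sep_of_log (r N k : ℕ) (hr : 1 ≤ r) (hN : 1 ≤ N)
    (h : (r : ℝ) * 2 ^ r * Real.log (2 * N) < k) : Sep r N k := by
  apply sep_of_count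
  have hx : (0 : ℝ) < (2 : ℝ) ^ r := by positivity
  have hx1 : (1 : ℝ) ≤ (2 : ℝ) ^ r := one_le_pow₀ (by norm_num)
  have hNpos : (0 : ℝ) < 2 * (N : ℝ) := by
    have : (1 : ℝ) ≤ N := by exact_mod_cast hN
    linarith
  have key : (2 * (N : ℝ)) ^ r * ((2 : ℝ) ^ r - 1) ^ k < ((2 : ℝ) ^ r) ^ k := by
    have h1 : ((2 : ℝ) ^ r - 1) ^ k = ((2 : ℝ) ^ r) ^ k * (1 - 1 / (2 : ℝ) ^ r) ^ k := by
      rw [← mul_pow]
      congr 1
      field_simp
    have h2 : (1 - 1 / (2 : ℝ) ^ r) ^ k ≤ Real.exp (-(k / 2 ^ r)) := by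
      have h3 : 1 - 1 / (2 : ℝ) ^ r ≤ Real.exp (-(1 / 2 ^ r)) := Real.one_sub_le_exp_neg _
      have h4 : 0 ≤ 1 - 1 / (2 : ℝ) ^ r := by
        have : 1 / (2 : ℝ) ^ r ≤ 1 := by
          rw [div_le_one hx]; exact hx1
        linarith
      refine le_trans (pow_le_pow_left₀ h4 h3 k) ?_
      rw [← Real.exp_nat_mul]
      apply le_of_eq
      congr 1
      ring
    have h5 : (2 * (N : ℝ)) ^ r = Real.exp (r * Real.log (2 * N)) := by
      rw [Real.exp_nat_mul, Real.exp_log hNpos]
    have h6 : (2 * (N : ℝ)) ^ r * Real.exp (-(k / 2 ^ r)) < 1 := by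
      rw [h5, ← Real.exp_add]
      rw [Real.exp_lt_one_iff]
      have : (r : ℝ) * Real.log (2 * N) < k / 2 ^ r := by
        rw [lt_div_iff₀ hx]
        calc (r : ℝ) * Real.log (2 * N) * 2 ^ r = r * 2 ^ r * Real.log (2 * N) := by ring
          _ < k := h
      linarith
    have h7 : 0 < ((2 : ℝ) ^ r) ^ k := by positivity
    calc (2 * (N : ℝ)) ^ r * ((2 : ℝ) ^ r - 1) ^ k
        = (2 * (N : ℝ)) ^ r * (1 - 1 / (2 : ℝ) ^ r) ^ k * ((2 : ℝ) ^ r) ^ k := by rw [h1]; ring
      _ ≤ (2 * (N : ℝ)) ^ r * Real.exp (-(k / 2 ^ r)) * ((2 : ℝ) ^ r) ^ k := by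
          gcongr
      _ < 1 * ((2 : ℝ) ^ r) ^ k := by
          exact mul_lt_mul_of_pos_right h6 h7
      _ = ((2 : ℝ) ^ r) ^ k := one_mul _
  have h8 : (((2 * N) ^ r * (2 ^ r - 1) ^ k : ℕ) : ℝ) < (((2 ^ r) ^ k : ℕ) : ℝ) := by
    rw [Nat.cast_mul, Nat.cast_pow, Nat.cast_mul, Nat.cast_pow (2 ^ r - 1),
      Nat.cast_sub Nat.one_le_two_pow, Nat.cast_pow (2 ^ r), Nat.cast_pow 2]
    simpa using key
  exact_mod_cast h8

/-- The explicit families for `r = 2`. -/
lemma sep_two (N k : ℕ) (h : N ≤ k.choose (k / 2 + 1)) : Sep 2 N k := by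
  classical
  have h0 : Fintype.card (Fin N) ≤
      Fintype.card (Finset.powersetCard (k / 2 + 1) (univ : Finset (Fin k))) := by
    simpa using h
  obtain ⟨e⟩ := Function.Embedding.nonempty_of_card_le h0
  have hcard : ∀ a, ((e a).1 : Finset (Fin k)).card = k / 2 + 1 := fun a =>
    (Finset.mem_powersetCard.1 (e a).2).2
  refine ⟨fun c a => decide (c ∈ (e a).1), ?_⟩
  intro P M hPM hP hcd
  obtain ⟨a, ha⟩ := hP
  by_cases hM : M.Nonempty
  · -- one positive and one negative point
    obtain ⟨b, hb⟩ := hM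
    have h1 : 0 < M.card := Finset.card_pos.2 ⟨b, hb⟩
    have h2 : 0 < P.card := Finset.card_pos.2 ⟨a, ha⟩
    have hPa : P = {a} := by
      obtain ⟨a', ha'⟩ := Finset.card_eq_one.1 (show P.card = 1 by omega)
      rw [ha'] at ha ⊢
      rw [Finset.mem_singleton.1 ha]
    have hMb : M = {b} := by
      obtain ⟨b', hb'⟩ := Finset.card_eq_one.1 (show M.card = 1 by omega)
      rw [hb'] at hb ⊢
      rw [Finset.mem_singleton.1 hb]
    have hab : a ≠ b := by
      rintro rfl
      exact (Finset.disjoint_left.1 hPM ha) hb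
    have hex : ∃ c ∈ (e a).1, c ∉ (e b).1 := by
      by_contra hcon
      push Not at hcon
      have h3 : (e a).1 = (e b).1 := by
        apply Finset.eq_of_subset_of_card_le hcon
        rw [hcard, hcard]
      exact hab (e.injective (Subtype.ext h3))
    obtain ⟨c, hc1, hc2⟩ := hex
    refine ⟨c, ?_, ?_⟩
    · intro x hx
      rw [hPa, Finset.mem_singleton] at hx
      subst hx
      simpa using hc1
    · intro x hx
      rw [hMb, Finset.mem_singleton] at hx
      subst hx
      simpa using hc2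
  · rw [Finset.not_nonempty_iff_eq_empty] at hM
    subst hM
    -- two positive points
    have hPb : ∃ b, P ⊆ {a, b} := by
      by_cases h1 : P.card = 1
      · obtain ⟨a', ha'⟩ := Finset.card_eq_one.1 h1
        refine ⟨a, ?_⟩
        rw [ha'] at ha ⊢
        rw [Finset.mem_singleton.1 ha]
        simp
      · have h2 : 0 < P.card := Finset.card_pos.2 ⟨a, ha⟩
        have h3 : P.card = 2 := by
          simp only [Finset.card_empty] at hcd
          omega
        obtain ⟨x, y, -, hxy⟩ := Finset.card_eq_two.1 h3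
        rw [hxy, Finset.mem_insert, Finset.mem_singleton] at ha
        rcases ha with rfl | rfl
        · exact ⟨y, by rw [hxy]⟩
        · exact ⟨x, by rw [hxy, Finset.pair_comm]⟩
    obtain ⟨b, hb⟩ := hPb
    have hex : ∃ c, c ∈ (e a).1 ∧ c ∈ (e b).1 := by
      by_contra hcon
      push Not at hcon
      have h3 : Disjoint (e a).1 (e b).1 := Finset.disjoint_left.2 hcon
      have h4 := Finset.card_union_of_disjoint h3
      have h5 := Finset.card_le_univ ((e a).1 ∪ (e b).1)
      rw [h4, hcard, hcard, Fintype.card_fin] at h5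
      omega
    obtain ⟨c, hc1, hc2⟩ := hex
    refine ⟨c, ?_, by simp⟩
    intro x hx
    have h3 := hb hx
    rw [Finset.mem_insert, Finset.mem_singleton] at h3
    rcases h3 with rfl | rfl
    · simpa using hc1
    · simpa using hc2

end Pool.Agent.Run7.h644.BC
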